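import Mathlib
import Pool.Agent.H289R4.Mid3

namespace Pool.Agent.Results.MP_df1a54_co.GeneralLowerBound

open Pool.Agent.H289R4

/-- For all `1 ≤ k < n`, `f(n,k) ≥ min(⌊n/2⌋, ⌈k - n/4⌉)`. -/
theorem result (n k : ℕ) (hk : 1 ≤ k) (hkn : k < n) :
    min (n / 2) ((4 * k + 3 - n) / 4) ≤ f n k :=
  f_ge2 n k hk hkn

end Pool.Agent.Results.MP_df1a54_co.GeneralLowerBound
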