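import Mathlib
import Pool.Agent.H289R4.Upper2

namespace Pool.Agent.Results.MP_df1a54_co.HighConnectivity

open Pool.Agent.H289R4

/-- The exact value of `f(n,k)` for `k ≥ (3n-2)/4`: if `1 ≤ k < n` and `4 (n-k) ≤ n + 2`, then
`f(n,k) = ⌊n/2⌋` if `kn` is even and `f(n,k) = (n+1)/2` if `kn` is odd. -/
theorem result (n k : ℕ) (hk : 1 ≤ k) (hkn : k < n) (h : 4 * (n - k) ≤ n + 2) :
    f n k = if Even (k * n) then n / 2 else (n + 1) / 2 := by
  obtain ⟨j, rfl⟩ : ∃ j, n = k + j := ⟨n - k, by omega⟩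
  rw [Nat.add_sub_cancel_left] at h
  rw [f_eq2 k j hk (by omega) h]
  split_ifs with he
  · rw [Nat.even_iff.1 he, Nat.add_zero]
  · rw [Nat.not_even_iff.1 he]

end Pool.Agent.Results.MP_df1a54_co.HighConnectivity
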